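import Pool.Agent.helper37.F2.Spec

set_option autoImplicit false

namespace Pool.Agent.helper36.F2

open Pool.Agent.RXF

noncomputable section

/-- position: inner vertex of the path -/
theorem bpos_mid (F : BG) (t : ℕ) (e : F.E) (i : ℕ) (h : 1 ≤ i ∧ i < t) :
    F.pos t e i = .inr (.inl (e, ⟨i - 1, by omega⟩)) := by
  unfold BG.pos
  rw [dif_pos h]

theorem bpos_zero (F : BG) (t : ℕ) (e : F.E) : F.pos t e 0 = .inl (F.a e) := by
  unfold BG.pos
  rw [dif_neg (by omega), if_pos rfl]

theorem bpos_t (F : BG) (t : ℕ) (ht : 1 ≤ t) (e : F.E) : F.pos t e t = .inl (F.b e) := by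
  unfold BG.pos
  rw [dif_neg (by omega), if_neg (by omega)]

theorem bcase {t i : ℕ} (h : i ≤ t) : i = 0 ∨ i = t ∨ (1 ≤ i ∧ i < t) := by omega

theorem bside_pos (F : BG) (hF : F.Ok) (t : ℕ) (ht : 1 ≤ t) (e : F.E) (i : ℕ) (hi : i ≤ t) :
    F.lside t (F.pos t e i) = decide (i % 2 = 0) := by
  rcases bcase hi with h | h | h
  · subst h; rw [bpos_zero]; simp [BG.lside, hF.sa]
  · subst h; rw [bpos_t F i ht]; simp [BG.lside, hF.sb]
  · rw [bpos_mid F t e i h]
    simp only [BG.lside]
    rw [show i - 1 + 1 = i by omega]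

theorem bends_ne (F : BG) (hF : F.Ok) (t : ℕ) (ht : 1 ≤ t) (x : (F.E × Fin t) ⊕ F.W) :
    F.lside t (F.lends t x).1 = !F.lside t (F.lends t x).2 := by
  rcases x with ⟨e, i⟩ | w
  · simp only [BG.lends]
    rw [bside_pos F hF t ht e _ (by omega), bside_pos F hF t ht e _ (by omega)]
    by_cases h : i.1 % 2 = 0
    · simp [h, show ¬ (i.1 + 1) % 2 = 0 by omega]
    · simp [h, show (i.1 + 1) % 2 = 0 by omega]
  · simp only [BG.lends, BG.lside]
    cases hs : F.side w
    · by_cases h : t % 2 = 0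
      · simp [h]
      · simp [show t % 2 = 1 by omega]
    · simp

/-- the two ends of an edge -/
theorem bab (F : BG) (hF : F.Ok) (t : ℕ) (ht : 1 ≤ t) (x : (F.L t).E) :
    ((F.L t).a x = (F.lends t x).1 ∧ (F.L t).b x = (F.lends t x).2 ∧
      F.lside t (F.lends t x).1 = true ∧ F.lside t (F.lends t x).2 = false) ∨
    ((F.L t).a x = (F.lends t x).2 ∧ (F.L t).b x = (F.lends t x).1 ∧
      F.lside t (F.lends t x).2 = true ∧ F.lside t (F.lends t x).1 = false) := by
  have h := bends_ne F hF t ht x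
  by_cases h1 : F.lside t (F.lends t x).1 = true
  · left
    have h2 : F.lside t (F.lends t x).2 = false := by
      rw [h1] at h; revert h; cases F.lside t (F.lends t x).2 <;> simp
    refine ⟨?_, ?_, h1, h2⟩
    · show (if F.lside t (F.lends t x).1 = true then (F.lends t x).1 else (F.lends t x).2) = _
      rw [if_pos h1]
    · show (if F.lside t (F.lends t x).1 = true then (F.lends t x).2 else (F.lends t x).1) = _
      rw [if_pos h1]
  · right
    have h1' : F.lside t (F.lends t x).1 = false := by simpa using h1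
    have h2 : F.lside t (F.lends t x).2 = true := by
      rw [h1'] at h; revert h; cases F.lside t (F.lends t x).2 <;> simp
    refine ⟨?_, ?_, h2, h1'⟩
    · show (if F.lside t (F.lends t x).1 = true then (F.lends t x).1 else (F.lends t x).2) = _
      rw [if_neg h1]
    · show (if F.lside t (F.lends t x).1 = true then (F.lends t x).2 else (F.lends t x).1) = _
      rw [if_neg h1]

/-- equal positions -/
theorem bpos_inj (F : BG) (hF : F.Ok) (t : ℕ) (ht : 1 ≤ t) (e e' : F.E) (i i' : ℕ) (hi : i ≤ t)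
    (hi' : i' ≤ t) (h : F.pos t e i = F.pos t e' i') :
    i = i' ∧ (i = 0 → F.a e = F.a e') ∧ (i = t → F.b e = F.b e') ∧ (1 ≤ i → i < t → e = e') := by
  have hab : ∀ e e', F.a e ≠ F.b e' := by
    intro e e' h
    have h1 := hF.sa e
    rw [h, hF.sb] at h1
    exact absurd h1 (by simp)
  rcases bcase hi with h1 | h1 | h1 <;> rcases bcase hi' with h2 | h2 | h2
  · subst h1; subst h2
    rw [bpos_zero, bpos_zero] at h
    refine ⟨rfl, fun _ => Sum.inl.inj h, fun h => by omega, fun h => by omega⟩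
  · subst h1; subst h2
    rw [bpos_zero, bpos_t F _ ht] at h
    exact absurd (Sum.inl.inj h) (hab _ _)
  · subst h1
    rw [bpos_zero, bpos_mid F t _ _ h2] at h
    exact absurd h (by simp)
  · subst h1; subst h2
    rw [bpos_zero, bpos_t F _ ht] at h
    exact absurd (Sum.inl.inj h).symm (hab _ _)
  · subst h1; subst h2
    rw [bpos_t F _ ht, bpos_t F _ ht] at h
    refine ⟨rfl, fun h => by omega, fun _ => Sum.inl.inj h, fun _ h => by omega⟩
  · subst h1
    rw [bpos_t F _ ht, bpos_mid F _ _ _ h2] at h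
    exact absurd h (by simp)
  · subst h2
    rw [bpos_zero, bpos_mid F _ _ _ h1] at h
    exact absurd h (by simp)
  · subst h2
    rw [bpos_t F _ ht, bpos_mid F _ _ _ h1] at h
    exact absurd h (by simp)
  · rw [bpos_mid F _ _ _ h1, bpos_mid F _ _ _ h2] at h
    have h3 := Sum.inl.inj (Sum.inr.inj h)
    rw [Prod.mk.injEq, Fin.mk.injEq] at h3
    exact ⟨by omega, fun h => by omega, fun h => by omega, fun _ _ => h3.1⟩

theorem bpos_ne_hub (F : BG) (t : ℕ) (e : F.E) (i : ℕ) (s : Bool) :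
    F.pos t e i ≠ .inr (.inr s) := by
  unfold BG.pos
  split_ifs <;> simp

theorem bends_inj (F : BG) (hF : F.Ok) (t : ℕ) (ht : 1 ≤ t) (x x' : (F.E × Fin t) ⊕ F.W)
    (h : (F.lends t x).1 = (F.lends t x').1 ∧ (F.lends t x).2 = (F.lends t x').2 ∨
      (F.lends t x).1 = (F.lends t x').2 ∧ (F.lends t x).2 = (F.lends t x').1) : x = x' := by
  rcases x with ⟨e, i⟩ | w <;> rcases x' with ⟨e', i'⟩ | w' <;> simp only [BG.lends] at h
  · rcases h with ⟨h1, h2⟩ | ⟨h1, h2⟩
    · have k1 := bpos_inj F hF t ht e e' _ _ (by omega) (by omega) h1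
      have k2 := bpos_inj F hF t ht e e' _ _ (by omega) (by omega) h2
      have hii : i = i' := Fin.ext k1.1
      subst hii
      have hee : e = e' := by
        by_cases c1 : 1 ≤ i.1
        · exact k1.2.2.2 c1 i.2
        · by_cases c2 : i.1 + 1 < t
          · exact k2.2.2.2 (by omega) c2
          · exact hF.inj e e' (k1.2.1 (by omega)) (k2.2.2.1 (by omega))
      rw [hee]
    · have k1 := bpos_inj F hF t ht e e' _ _ (by omega) (by omega) h1
      have k2 := bpos_inj F hF t ht e e' _ _ (by omega) (by omega) h2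
      omega
  · rcases h with ⟨h1, h2⟩ | ⟨h1, h2⟩
    · exact absurd h2 (bpos_ne_hub F t _ _ _)
    · exact absurd h1 (bpos_ne_hub F t _ _ _)
  · rcases h with ⟨h1, h2⟩ | ⟨h1, h2⟩
    · exact absurd h2.symm (bpos_ne_hub F t _ _ _)
    · exact absurd h2.symm (bpos_ne_hub F t _ _ _)
  · rcases h with ⟨h1, h2⟩ | ⟨h1, h2⟩
    · rw [Sum.inl.inj h1]
    · exact absurd h1 (by simp)

theorem LO1 : LO1_stmt := by
  intro F t hF ht
  refine ⟨?_, ?_, ?_, ?_, ?_⟩
  · intro x
    rcases bab F hF t ht x with h | h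
    · rw [h.1]; exact h.2.2.1
    · rw [h.1]; exact h.2.2.1
  · intro x
    rcases bab F hF t ht x with h | h
    · rw [h.2.1]; exact h.2.2.2
    · rw [h.2.1]; exact h.2.2.2
  · intro x x' ha hb
    apply bends_inj F hF t ht x x'
    rcases bab F hF t ht x with h | h <;> rcases bab F hF t ht x' with h' | h' <;>
      rw [h.1, h'.1] at ha <;> rw [h.2.1, h'.2.1] at hb
    · exact Or.inl ⟨ha, hb⟩
    · exact Or.inr ⟨ha, hb⟩
    · exact Or.inr ⟨hb, ha⟩
    · exact Or.inl ⟨hb, ha⟩
  · have key : ∀ x : (F.E × Fin t) ⊕ F.W, ∀ w, ((F.lends t x).1 = w ∨ (F.lends t x).2 = w) →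
        ∃ e, (F.L t).a e = w ∨ (F.L t).b e = w := by
      intro x w hw
      refine ⟨x, ?_⟩
      rcases bab F hF t ht x with h | h <;> rw [h.1, h.2.1]
      · exact hw
      · exact hw.symm
    obtain ⟨e0⟩ := hF.ne
    intro w
    rcases w with w | ⟨e, j⟩ | s
    · exact key (.inr w) _ (Or.inl rfl)
    · refine key (.inl (e, ⟨j.1 + 1, by omega⟩)) _ (Or.inl ?_)
      simp only [BG.lends]
      rw [bpos_mid F t e _ (by omega)]
      simp
    · cases s
      · refine key (.inr (F.b e0)) _ (Or.inr ?_)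
        simp only [BG.lends, hF.sb]
      · refine key (.inr (F.a e0)) _ (Or.inr ?_)
        simp only [BG.lends, hF.sa]
  · obtain ⟨e0⟩ := hF.ne
    exact ⟨.inr (F.a e0)⟩

end

end Pool.Agent.helper36.F2
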