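import Pool.Agent.helper36.F2.LO1

set_option autoImplicit false

namespace Pool.Agent.helper36.F2

open Pool.Agent.RXF

noncomputable section

theorem bne_iff {a b : Bool} (h : a ≠ b) : a = !b := by
  cases a <;> cases b <;> simp_all

/-- a 2-colouring alternates along the paths -/
theorem lo2_alt (F : BG) (t : ℕ) (s : (F.L t).W → Bool)
    (hs : ∀ x : (F.E × Fin t) ⊕ F.W, s (F.lends t x).1 ≠ s (F.lends t x).2) (e : F.E) :
    ∀ i, i ≤ t → s (F.pos t e i) = xor (s (F.pos t e 0)) (decide (i % 2 = 1)) := by
  intro i
  induction i with
  | zero => intro _; simp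
  | succ i ih =>
    intro hi
    have h1 := ih (by omega)
    have h2 := hs (.inl (e, ⟨i, by omega⟩))
    simp only [BG.lends] at h2
    have h3 := bne_iff h2.symm
    rw [h3, h1]
    by_cases h : i % 2 = 1
    · simp [h, show (i + 1) % 2 = 0 by omega]
    · simp [h, show (i + 1) % 2 = 1 by omega]

theorem LO2 : LO2_stmt := by
  intro F t hF ht s hs0
  have hs : ∀ x : (F.E × Fin t) ⊕ F.W, s (F.lends t x).1 ≠ s (F.lends t x).2 := by
    intro x
    have h := hs0 x
    rcases bab F hF t ht x with k | k
    · rw [k.1, k.2.1] at h; exact h
    · rw [k.1, k.2.1] at h; exact h.symm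
  have alt := lo2_alt F t s hs
  -- the constant on the old vertices
  have hc : ∃ c : Bool, ∀ w : F.W, s (.inl w) = xor c (F.lside t (.inl w)) := by
    by_cases hodd : t % 2 = 1
    · have h1 : ∀ e, s (.inl (F.a e)) ≠ s (.inl (F.b e)) := by
        intro e
        have h2 := alt e t le_rfl
        rw [bpos_t F t ht, bpos_zero] at h2
        rw [h2]
        simp [hodd]
      have hl : ∀ w : F.W, F.lside t (.inl w) = F.side w := by
        intro w
        simp only [BG.lside]
        cases F.side w <;> simp [show ¬ t % 2 = 0 by omega]
      rcases hF.rigid (fun w => s (.inl w)) h1 with h | h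
      · refine ⟨false, fun w => ?_⟩
        rw [hl w]
        simpa using congrFun h w
      · refine ⟨true, fun w => ?_⟩
        rw [hl w]
        simpa using congrFun h w
    · have h1 : ∀ e, s (.inl (F.a e)) = s (.inl (F.b e)) := by
        intro e
        have h2 := alt e t le_rfl
        rw [bpos_t F t ht, bpos_zero] at h2
        rw [h2]
        simp [show t % 2 = 0 by omega]
      have hl : ∀ w : F.W, F.lside t (.inl w) = true := by
        intro w
        simp only [BG.lside]
        cases F.side w <;> simp [show t % 2 = 0 by omega]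
      have h2 : ∀ e, (fun w => xor (s (.inl w)) (F.side w)) (F.a e) ≠
          (fun w => xor (s (.inl w)) (F.side w)) (F.b e) := by
        intro e
        simp only
        rw [h1 e, hF.sa, hF.sb]
        simp
      rcases hF.rigid (fun w => xor (s (.inl w)) (F.side w)) h2 with h | h
      · refine ⟨true, fun w => ?_⟩
        rw [hl w]
        have h3 : xor (s (.inl w)) (F.side w) = F.side w := congrFun h w
        revert h3
        cases s (.inl w) <;> cases F.side w <;> simp
      · refine ⟨false, fun w => ?_⟩
        rw [hl w]
        have h3 : xor (s (.inl w)) (F.side w) = !F.side w := congrFun h w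
        revert h3
        cases s (.inl w) <;> cases F.side w <;> simp
  obtain ⟨c, hc⟩ := hc
  obtain ⟨e0⟩ := hF.ne
  have hall : ∀ w : (F.L t).W, s w = xor c (F.lside t w) := by
    intro w
    rcases w with w | ⟨e, j⟩ | u
    · exact hc w
    · have h1 := alt e (j.1 + 1) (by omega)
      have h2 := bside_pos F hF t ht e (j.1 + 1) (by omega)
      rw [bpos_mid F t e _ (by omega)] at h1 h2
      rw [bpos_zero, hc] at h1
      have h3 := bside_pos F hF t ht e 0 (by omega)
      rw [bpos_zero] at h3
      rw [h3] at h1
      have h4 : (⟨j.1 + 1 - 1, by omega⟩ : Fin (t - 1)) = j := Fin.ext (by simp)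
      rw [h4] at h1 h2
      rw [h1, h2]
      by_cases h : j.1 % 2 = 1
      · simp [show (j.1 + 1) % 2 = 0 by omega]
      · simp [show (j.1 + 1) % 2 = 1 by omega]
    · have key : ∀ w : F.W, F.side w = u → s (.inr (.inr u)) = xor c (F.lside t (.inr (.inr u))) := by
        intro w hw
        have h1 := hs (.inr w)
        have h2 := bends_ne F hF t ht (.inr w)
        simp only [BG.lends] at h1 h2
        rw [hw] at h1 h2
        rw [hc w, h2] at h1
        have h3 := bne_iff h1.symm
        rw [h3]
        cases c <;> cases F.lside t (.inr (.inr u)) <;> rfl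
      cases u
      · exact key (F.b e0) (hF.sb e0)
      · exact key (F.a e0) (hF.sa e0)
  cases c
  · left
    funext w
    rw [hall w]
    simp [BG.L]
  · right
    funext w
    rw [hall w]
    simp [BG.L]

end

end Pool.Agent.helper36.F2
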