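import Pool.Agent.helper36.F2.TO

set_option autoImplicit false

open scoped BigOperators

namespace Pool.Agent.helper36.F2

open Pool.Agent.RXF

noncomputable section

open Classical

/-- a nonempty set of places of a path meets more edges than it has inner places -/
theorem tb_path (P : ℕ → Prop) (t : ℕ) (ht : 1 ≤ t) (h : ∃ i, i ≤ t ∧ P i) :
    ((Finset.range (t - 1)).filter (fun j => P (j + 1))).card + 1 ≤
      ((Finset.range t).filter (fun i => P i ∨ P (i + 1))).card := by
  induction t, ht using Nat.le_induction with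
  | base =>
    obtain ⟨i, hi, hP⟩ := h
    have h0 : 0 ∈ (Finset.range 1).filter (fun i => P i ∨ P (i + 1)) := by
      rw [Finset.mem_filter]
      refine ⟨by simp, ?_⟩
      rcases Nat.le_one_iff_eq_zero_or_eq_one.mp hi with h1 | h1
      · left; rw [h1] at hP; exact hP
      · right; rw [h1] at hP; exact hP
    have h1 := Finset.card_pos.mpr ⟨0, h0⟩
    simpa using h1
  | succ t ht ih =>
    have hK : ((Finset.range (t + 1 - 1)).filter (fun j => P (j + 1))).card =
        ((Finset.range (t - 1)).filter (fun j => P (j + 1))).card + (if P t then 1 else 0) := by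
      rw [show t + 1 - 1 = (t - 1) + 1 by omega, Finset.range_add_one, Finset.filter_insert,
        show t - 1 + 1 = t by omega]
      split_ifs with h1
      · rw [Finset.card_insert_of_notMem (by simp)]
      · rfl
    have hN : ((Finset.range (t + 1)).filter (fun i => P i ∨ P (i + 1))).card =
        ((Finset.range t).filter (fun i => P i ∨ P (i + 1))).card +
          (if P t ∨ P (t + 1) then 1 else 0) := by
      rw [Finset.range_add_one, Finset.filter_insert]
      split_ifs with h1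
      · rw [Finset.card_insert_of_notMem (by simp)]
      · rfl
    rw [hK, hN]
    by_cases hc : ∃ i, i ≤ t ∧ P i
    · have h1 := ih hc
      by_cases h2 : P t
      · simp only [h2, true_or, if_true]; omega
      · simp only [h2, false_or, if_false]; split_ifs <;> omega
    · have hP : P (t + 1) := by
        obtain ⟨i, hi, hPi⟩ := h
        rcases Nat.lt_or_ge i (t + 1) with h1 | h1
        · exact absurd ⟨i, by omega, hPi⟩ hc
        · rw [show i = t + 1 by omega] at hPi; exact hPi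
      have h3 : ((Finset.range (t - 1)).filter (fun j => P (j + 1))).card = 0 := by
        rw [Finset.card_eq_zero, Finset.filter_eq_empty_iff]
        intro j hj hPj
        rw [Finset.mem_range] at hj
        exact hc ⟨j + 1, by omega, hPj⟩
      have h4 : ¬ P t := fun h => hc ⟨t, le_rfl, h⟩
      rw [h3]
      simp [h4, hP]

/-- indicator -/
def ind (p : Prop) : ℕ := @ite _ p (Classical.propDecidable p) 1 0

theorem ind_congr {p q : Prop} (h : p ↔ q) : ind p = ind q := by rw [propext h]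

theorem ite_ind (p : Prop) (h : Decidable p) : @ite ℕ p h 1 0 = ind p := by
  unfold ind
  by_cases hp : p
  · rw [if_pos hp, if_pos hp]
  · rw [if_neg hp, if_neg hp]

theorem card_ind {α : Type} [Fintype α] (p : α → Prop) (h : DecidablePred p) :
    (@Finset.filter α p h Finset.univ).card = ∑ x, ind (p x) := by
  rw [Finset.card_filter]
  apply Finset.sum_congr rfl
  intro x _
  rw [ite_ind]

theorem card_ind' {α : Type} [Fintype α] (S : Finset α) : S.card = ∑ x, ind (x ∈ S) := by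
  rw [← card_ind (fun x => x ∈ S) (fun x => Classical.propDecidable _)]
  congr 1
  ext x
  simp

theorem range_ind (t : ℕ) (p : ℕ → Prop) (h : DecidablePred p) :
    (@Finset.filter ℕ p h (Finset.range t)).card = ∑ i : Fin t, ind (p i.1) := by
  rw [Finset.card_filter, ← Fin.sum_univ_eq_sum_range (fun i => if p i then 1 else 0)]
  apply Finset.sum_congr rfl
  intro x _
  rw [ite_ind]

/-- the places of the path of `e` which belong to `S'` -/
def Pl (T : TR) (t : ℕ) (S' : Finset (T.I ⊕ (T.E × Fin (t - 1)))) (e : T.E) (i : ℕ) : Prop :=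
  ∃ z ∈ S', T.pos t e i = Sum.inr z

/-- number of inner places -/
def kk (T : TR) (t : ℕ) (S' : Finset (T.I ⊕ (T.E × Fin (t - 1)))) (e : T.E) : ℕ :=
  ∑ j : Fin (t - 1), ind (Pl T t S' e (j.1 + 1))

/-- number of edges of the path which meet `S'` -/
def nn (T : TR) (t : ℕ) (S' : Finset (T.I ⊕ (T.E × Fin (t - 1)))) (e : T.E) : ℕ :=
  ∑ i : Fin t, ind (Pl T t S' e i.1 ∨ Pl T t S' e (i.1 + 1))

theorem tb_mid (T : TR) (t : ℕ) (S' : Finset (T.I ⊕ (T.E × Fin (t - 1)))) (e : T.E)
    (j : Fin (t - 1)) : (Sum.inr (e, j) : T.I ⊕ (T.E × Fin (t - 1))) ∈ S' ↔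
      Pl T t S' e (j.1 + 1) := by
  have h1 : T.pos t e (j.1 + 1) = .inr (.inr (e, j)) := by
    rw [tpos_mid T t e _ (by omega)]
    have h2 : (⟨j.1 + 1 - 1, by omega⟩ : Fin (t - 1)) = j := Fin.ext (by simp)
    rw [h2]
  constructor
  · intro h
    exact ⟨_, h, h1⟩
  · rintro ⟨z, hz, hz2⟩
    rw [h1] at hz2
    rw [Sum.inr.inj hz2]
    exact hz

theorem tb_cardS (T : TR) (t : ℕ) (S' : Finset (T.I ⊕ (T.E × Fin (t - 1)))) :
    S'.card = (∑ y : T.I, ind ((Sum.inl y : T.I ⊕ (T.E × Fin (t - 1))) ∈ S')) +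
      ∑ e, kk T t S' e := by
  rw [card_ind' S', Fintype.sum_sum_type, Fintype.sum_prod_type]
  congr 1
  apply Finset.sum_congr rfl
  intro e _
  unfold kk
  apply Finset.sum_congr rfl
  intro j _
  exact ind_congr (tb_mid T t S' e j)

theorem tb_cardE (T : TR) (t : ℕ) (S' : Finset (T.I ⊕ (T.E × Fin (t - 1)))) :
    (∑ x : (T.E × Fin t) ⊕ T.I, ind (∃ z ∈ S', (T.lends t x).1 = Sum.inr z ∨
      (T.lends t x).2 = Sum.inr z)) =
    (∑ y : T.I, ind ((Sum.inl y : T.I ⊕ (T.E × Fin (t - 1))) ∈ S')) + ∑ e, nn T t S' e := by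
  rw [Fintype.sum_sum_type, Fintype.sum_prod_type, add_comm]
  congr 1
  · apply Finset.sum_congr rfl
    intro y _
    apply ind_congr
    constructor
    · rintro ⟨z, hz, h1 | h1⟩
      · have h2 : (Sum.inl y : T.I ⊕ (T.E × Fin (t - 1))) = z := Sum.inr.inj h1
        rw [h2]; exact hz
      · exact absurd h1 (by simp [TR.lends])
    · intro h
      exact ⟨_, h, Or.inl rfl⟩
  · apply Finset.sum_congr rfl
    intro e _
    unfold nn
    apply Finset.sum_congr rfl
    intro i _
    apply ind_congr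
    constructor
    · rintro ⟨z, hz, h1 | h1⟩
      · exact Or.inl ⟨z, hz, h1⟩
      · exact Or.inr ⟨z, hz, h1⟩
    · rintro (⟨z, hz, h1⟩ | ⟨z, hz, h1⟩)
      · exact ⟨z, hz, Or.inl h1⟩
      · exact ⟨z, hz, Or.inr h1⟩

theorem tb_kn (T : TR) (t : ℕ) (ht : 1 ≤ t) (S' : Finset (T.I ⊕ (T.E × Fin (t - 1)))) (e : T.E)
    (h : ∃ i, i ≤ t ∧ Pl T t S' e i) : kk T t S' e + 1 ≤ nn T t S' e := by
  have h1 := tb_path (Pl T t S' e) t ht h
  rw [range_ind, range_ind] at h1
  exact h1

theorem ind_le (p : Prop) : ind p ≤ 1 := by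
  unfold ind
  split_ifs <;> simp

theorem ind_pos {p : Prop} (h : ind p ≠ 0) : p := by
  by_contra hp
  apply h
  unfold ind
  rw [if_neg hp]

theorem ind_true {p : Prop} (h : p) : ind p = 1 := by
  unfold ind
  rw [if_pos h]

theorem ind_false {p : Prop} (h : ¬ p) : ind p = 0 := by
  unfold ind
  rw [if_neg h]

theorem tb_core (T : TR) (t : ℕ) (ht : 1 ≤ t) (hB : T.Bal)
    (S' : Finset (T.I ⊕ (T.E × Fin (t - 1)))) :
    (Fintype.card T.E * t + Fintype.card T.I) *
      ((∑ y : T.I, ind ((Sum.inl y : T.I ⊕ (T.E × Fin (t - 1))) ∈ S')) + ∑ e, kk T t S' e) ≤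
    (Fintype.card T.I + Fintype.card T.E * (t - 1)) *
      ((∑ y : T.I, ind ((Sum.inl y : T.I ⊕ (T.E × Fin (t - 1))) ∈ S')) + ∑ e, nn T t S' e) := by
  set v := Fintype.card T.I with hv
  set m := Fintype.card T.E with hm
  let S : Finset T.I := Finset.univ.filter
    (fun y => (Sum.inl y : T.I ⊕ (T.E × Fin (t - 1))) ∈ S')
  have hSm : ∀ y, y ∈ S ↔ (Sum.inl y : T.I ⊕ (T.E × Fin (t - 1))) ∈ S' := by
    intro y
    rw [Finset.mem_filter]
    exact ⟨fun h => h.2, fun h => ⟨Finset.mem_univ _, h⟩⟩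
  have hSc : S.card = ∑ y : T.I, ind ((Sum.inl y : T.I ⊕ (T.E × Fin (t - 1))) ∈ S') := by
    rw [card_ind' S]
    apply Finset.sum_congr rfl
    intro y _
    exact ind_congr (hSm y)
  have hBS : m * S.card ≤ v * ∑ e : T.E, ind (∃ x ∈ S, T.a e = .inr x ∨ T.b e = .inr x) := by
    refine le_trans (hB S) (le_of_eq ?_)
    rw [card_ind]
  rw [← hSc]
  have hk : ∀ e, kk T t S' e ≤ t - 1 := by
    intro e
    unfold kk
    calc _ ≤ ∑ _j : Fin (t - 1), 1 := Finset.sum_le_sum (fun j _ => ind_le _)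
      _ = t - 1 := by simp
  have hone : ∀ e, (m * t + v) * kk T t S' e + v * ind (∃ x ∈ S, T.a e = .inr x ∨ T.b e = .inr x) ≤
      (v + m * (t - 1)) * nn T t S' e := by
    intro e
    obtain ⟨r, rfl⟩ : ∃ r, t = r + 1 := ⟨t - 1, by omega⟩
    have hk' : kk T (r + 1) S' e ≤ r := hk e
    have big : (∃ i, i ≤ r + 1 ∧ Pl T (r + 1) S' e i) →
        (m * (r + 1) + v) * kk T (r + 1) S' e + v ≤ (v + m * (r + 1 - 1)) * nn T (r + 1) S' e := by
      intro h
      have h1 := tb_kn T (r + 1) ht S' e h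
      have h2 := Nat.mul_le_mul_left m hk'
      have h3 := Nat.mul_le_mul_left (v + m * (r + 1 - 1)) h1
      refine le_trans ?_ h3
      rw [Nat.add_sub_cancel]
      nlinarith
    by_cases hme : ∃ x ∈ S, T.a e = .inr x ∨ T.b e = .inr x
    · rw [ind_true hme, mul_one]
      apply big
      obtain ⟨x, hx, h1 | h1⟩ := hme
      · refine ⟨0, by omega, .inl x, (hSm x).mp hx, ?_⟩
        rw [tpos_zero, h1]; rfl
      · refine ⟨r + 1, le_rfl, .inl x, (hSm x).mp hx, ?_⟩
        rw [tpos_t T (r + 1) ht, h1]; rfl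
    · rw [ind_false hme, mul_zero, add_zero]
      by_cases hk0 : kk T (r + 1) S' e = 0
      · rw [hk0]; simp
      · have h1 : ∃ j ∈ (Finset.univ : Finset (Fin (r + 1 - 1))),
            ind (Pl T (r + 1) S' e (j.1 + 1)) ≠ 0 := Finset.exists_ne_zero_of_sum_ne_zero hk0
        obtain ⟨j, -, hj⟩ := h1
        have h3 := big ⟨j.1 + 1, by omega, ind_pos hj⟩
        omega
  have hsum := Finset.sum_le_sum (fun e (_ : e ∈ (Finset.univ : Finset T.E)) => hone e)
  rw [Finset.sum_add_distrib, ← Finset.mul_sum, ← Finset.mul_sum, ← Finset.mul_sum] at hsum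
  obtain ⟨r, rfl⟩ : ∃ r, t = r + 1 := ⟨t - 1, by omega⟩
  rw [Nat.add_sub_cancel] at hsum ⊢
  nlinarith

theorem TB : TB_stmt := by
  intro T t hT hB ht S'
  obtain ⟨-, hI, hE⟩ := TO T t hT ht
  rw [hI, hE, card_ind]
  have h1 := tb_core T t ht hB S'
  have h2 := tb_cardS T t S'
  have h3 := tb_cardE T t S'
  have h4 : (∑ x : (T.L t).E, ind (∃ z ∈ S', (T.L t).a x = Sum.inr z ∨
      (T.L t).b x = Sum.inr z)) = ∑ x : (T.E × Fin t) ⊕ T.I,
        ind (∃ z ∈ S', (T.lends t x).1 = Sum.inr z ∨ (T.lends t x).2 = Sum.inr z) := by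
    apply Finset.sum_congr rfl
    intro x _
    apply ind_congr
    rcases tab T hT t ht x with h | h
    · rw [h.1, h.2.1]; rfl
    · rw [h.1, h.2.1]
      constructor
      · rintro ⟨z, hz, h1⟩; exact ⟨z, hz, h1.symm⟩
      · rintro ⟨z, hz, h1⟩; exact ⟨z, hz, h1.symm⟩
  have h5 : S'.card = (∑ y : T.I, ind ((Sum.inl y : T.I ⊕ (T.E × Fin (t - 1))) ∈ S')) +
      ∑ e, kk T t S' e := h2
  rw [h4.trans h3, h5]
  exact h1

end

end Pool.Agent.helper36.F2
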