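import Pool.Agent.helper37.F2.Spec

set_option autoImplicit false

namespace Pool.Agent.helper36.F2

open Pool.Agent.RXF

noncomputable section

/-- the map of the vertices -/
def teW (T : TR) (t p : ℕ) : (T.R ⊕ Bool) ⊕ (Fin p × (T.I ⊕ (T.E × Fin (t - 1)))) →
    (T.R ⊕ (Fin p × T.I)) ⊕ (((Fin p × T.E) × Fin (t - 1)) ⊕ Bool)
  | .inl (.inl x) => .inl (.inl x)
  | .inl (.inr s) => .inr (.inr s)
  | .inr (q, .inl y) => .inl (.inr (q, y))
  | .inr (q, .inr (e, i)) => .inr (.inl ((q, e), i))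

/-- the map of the edges -/
def teE (T : TR) (t p : ℕ) : Fin p × ((T.E × Fin t) ⊕ T.I) →
    (((Fin p × T.E) × Fin t) ⊕ (T.R ⊕ (Fin p × T.I)))
  | (q, .inl (e, i)) => .inl ((q, e), i)
  | (q, .inr y) => .inr (.inr (q, y))

/-- vertices of the copy `q` -/
def teQ (T : TR) (t p : ℕ) (q : Fin p) (v : (T.R ⊕ Bool) ⊕ (T.I ⊕ (T.E × Fin (t - 1)))) :
    (T.R ⊕ (Fin p × T.I)) ⊕ (((Fin p × T.E) × Fin (t - 1)) ⊕ Bool) :=
  teW T t p ((T.L t).lift q v)

theorem te_side (T : TR) (t p : ℕ) (q : Fin p) (v : (T.R ⊕ Bool) ⊕ (T.I ⊕ (T.E × Fin (t - 1)))) :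
    (T.pB p).lside t (teQ T t p q v) = T.lside t v := by
  rcases v with (x | s) | (y | ⟨e, i⟩) <;> rfl

theorem te_pos (T : TR) (t p : ℕ) (q : Fin p) (e : T.E) (i : ℕ) :
    (T.pB p).pos t (q, e) i = teQ T t p q (T.pos t e i) := by
  have hold : ∀ v : T.R ⊕ T.I, (Sum.inl (T.lift q v) :
      (T.R ⊕ (Fin p × T.I)) ⊕ (((Fin p × T.E) × Fin (t - 1)) ⊕ Bool)) =
        teQ T t p q (T.old t v) := by
    intro v
    rcases v with x | y <;> rfl
  unfold BG.pos TR.pos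
  by_cases h : 1 ≤ i ∧ i < t
  · rw [dif_pos h, dif_pos h]; rfl
  · rw [dif_neg h, dif_neg h]
    by_cases h0 : i = 0
    · rw [if_pos h0, if_pos h0]; exact hold _
    · rw [if_neg h0, if_neg h0]; exact hold _

theorem te_ends (T : TR) (t p : ℕ) (q : Fin p) (x : (T.E × Fin t) ⊕ T.I) :
    (T.pB p).lends t (teE T t p (q, x)) =
      (teQ T t p q (T.lends t x).1, teQ T t p q (T.lends t x).2) := by
  rcases x with ⟨e, i⟩ | y
  · show ((T.pB p).pos t (q, e) i.1, (T.pB p).pos t (q, e) (i.1 + 1)) = _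
    rw [te_pos, te_pos]
    rfl
  · rfl

theorem TE : TE_stmt := by
  intro T t p hT ht
  refine ⟨⟨teW T t p, teE T t p, ?_, ?_, ?_, ?_, ?_⟩⟩
  · rintro ((x | s) | ⟨q, (y | ⟨e, i⟩)⟩) ((x' | s') | ⟨q', (y' | ⟨e', i'⟩)⟩) h
    all_goals simp only [teW] at h
    all_goals cases h
    all_goals rfl
  · rintro ⟨q, (⟨e, i⟩ | y)⟩ ⟨q', (⟨e', i'⟩ | y')⟩ h
    all_goals simp only [teE] at h
    all_goals cases h
    all_goals rfl
  · rintro ((x | s) | ⟨q, (y | ⟨e, i⟩)⟩) <;> rfl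
  · rintro ⟨q, x⟩
    show (if (T.pB p).lside t ((T.pB p).lends t (teE T t p (q, x))).1 = true then
      ((T.pB p).lends t (teE T t p (q, x))).1 else ((T.pB p).lends t (teE T t p (q, x))).2) =
      teQ T t p q (if T.lside t (T.lends t x).1 = true then (T.lends t x).1 else (T.lends t x).2)
    rw [te_ends]
    simp only [te_side]
    split_ifs <;> rfl
  · rintro ⟨q, x⟩
    show (if (T.pB p).lside t ((T.pB p).lends t (teE T t p (q, x))).1 = true then
      ((T.pB p).lends t (teE T t p (q, x))).2 else ((T.pB p).lends t (teE T t p (q, x))).1) =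
      teQ T t p q (if T.lside t (T.lends t x).1 = true then (T.lends t x).2 else (T.lends t x).1)
    rw [te_ends]
    simp only [te_side]
    split_ifs <;> rfl

end

end Pool.Agent.helper36.F2
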