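import Pool.Agent.helper37.F2.Spec

set_option autoImplicit false

namespace Pool.Agent.helper36.F2

open Pool.Agent.RXF

noncomputable section

theorem tpos_mid (T : TR) (t : ℕ) (e : T.E) (i : ℕ) (h : 1 ≤ i ∧ i < t) :
    T.pos t e i = .inr (.inr (e, ⟨i - 1, by omega⟩)) := by
  unfold TR.pos
  rw [dif_pos h]

theorem tpos_zero (T : TR) (t : ℕ) (e : T.E) : T.pos t e 0 = T.old t (T.a e) := by
  unfold TR.pos
  rw [dif_neg (by omega), if_pos rfl]

theorem tpos_t (T : TR) (t : ℕ) (ht : 1 ≤ t) (e : T.E) : T.pos t e t = T.old t (T.b e) := by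
  unfold TR.pos
  rw [dif_neg (by omega), if_neg (by omega)]

theorem tcase {t i : ℕ} (h : i ≤ t) : i = 0 ∨ i = t ∨ (1 ≤ i ∧ i < t) := by omega

theorem tside_old (T : TR) (t : ℕ) (w : T.R ⊕ T.I) :
    T.lside t (T.old t w) = if T.side w = true then true else decide (t % 2 = 0) := by
  rcases w with x | y <;> rfl

theorem told_inj (T : TR) (t : ℕ) (w w' : T.R ⊕ T.I) (h : T.old t w = T.old t w') : w = w' := by
  rcases w with x | y <;> rcases w' with x' | y' <;> simp [TR.old] at h ⊢ <;> exact h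

theorem told_ne_mid (T : TR) (t : ℕ) (w : T.R ⊕ T.I) (e : T.E × Fin (t - 1)) :
    T.old t w ≠ .inr (.inr e) := by
  rcases w with x | y <;> simp [TR.old]

theorem told_ne_hub (T : TR) (t : ℕ) (w : T.R ⊕ T.I) (s : Bool) :
    T.old t w ≠ .inl (.inr s) := by
  rcases w with x | y <;> simp [TR.old]

theorem tside_pos (T : TR) (hT : T.Ok) (t : ℕ) (ht : 1 ≤ t) (e : T.E) (i : ℕ) (hi : i ≤ t) :
    T.lside t (T.pos t e i) = decide (i % 2 = 0) := by
  rcases tcase hi with h | h | h
  · subst h; rw [tpos_zero, tside_old, hT.sa]; simp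
  · subst h; rw [tpos_t T i ht, tside_old, hT.sb]; simp
  · rw [tpos_mid T t e i h]
    simp only [TR.lside]
    rw [show i - 1 + 1 = i by omega]

theorem tends_ne (T : TR) (hT : T.Ok) (t : ℕ) (ht : 1 ≤ t) (x : (T.E × Fin t) ⊕ T.I) :
    T.lside t (T.lends t x).1 = !T.lside t (T.lends t x).2 := by
  rcases x with ⟨e, i⟩ | w
  · simp only [TR.lends]
    rw [tside_pos T hT t ht e _ (by omega), tside_pos T hT t ht e _ (by omega)]
    by_cases h : i.1 % 2 = 0
    · simp [h, show ¬ (i.1 + 1) % 2 = 0 by omega]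
    · simp [h, show (i.1 + 1) % 2 = 0 by omega]
  · simp only [TR.lends, TR.lside]
    cases hs : T.side (.inr w)
    · by_cases h : t % 2 = 0
      · simp [h]
      · simp [show t % 2 = 1 by omega]
    · simp

/-- the two ends of an edge -/
theorem tab (T : TR) (hT : T.Ok) (t : ℕ) (ht : 1 ≤ t) (x : (T.L t).E) :
    ((T.L t).a x = (T.lends t x).1 ∧ (T.L t).b x = (T.lends t x).2 ∧
      T.lside t (T.lends t x).1 = true ∧ T.lside t (T.lends t x).2 = false) ∨
    ((T.L t).a x = (T.lends t x).2 ∧ (T.L t).b x = (T.lends t x).1 ∧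
      T.lside t (T.lends t x).2 = true ∧ T.lside t (T.lends t x).1 = false) := by
  have h := tends_ne T hT t ht x
  by_cases h1 : T.lside t (T.lends t x).1 = true
  · left
    have h2 : T.lside t (T.lends t x).2 = false := by
      rw [h1] at h; revert h; cases T.lside t (T.lends t x).2 <;> simp
    refine ⟨?_, ?_, h1, h2⟩
    · show (if T.lside t (T.lends t x).1 = true then (T.lends t x).1 else (T.lends t x).2) = _
      rw [if_pos h1]
    · show (if T.lside t (T.lends t x).1 = true then (T.lends t x).2 else (T.lends t x).1) = _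
      rw [if_pos h1]
  · right
    have h1' : T.lside t (T.lends t x).1 = false := by simpa using h1
    have h2 : T.lside t (T.lends t x).2 = true := by
      rw [h1'] at h; revert h; cases T.lside t (T.lends t x).2 <;> simp
    refine ⟨?_, ?_, h2, h1'⟩
    · show (if T.lside t (T.lends t x).1 = true then (T.lends t x).1 else (T.lends t x).2) = _
      rw [if_neg h1]
    · show (if T.lside t (T.lends t x).1 = true then (T.lends t x).2 else (T.lends t x).1) = _
      rw [if_neg h1]

/-- equal positions -/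
theorem tpos_inj (T : TR) (hT : T.Ok) (t : ℕ) (ht : 1 ≤ t) (e e' : T.E) (i i' : ℕ) (hi : i ≤ t)
    (hi' : i' ≤ t) (h : T.pos t e i = T.pos t e' i') :
    i = i' ∧ (i = 0 → T.a e = T.a e') ∧ (i = t → T.b e = T.b e') ∧ (1 ≤ i → i < t → e = e') := by
  have hab : ∀ e e', T.a e ≠ T.b e' := by
    intro e e' h
    have h1 := hT.sa e
    rw [h, hT.sb] at h1
    exact absurd h1 (by simp)
  rcases tcase hi with h1 | h1 | h1 <;> rcases tcase hi' with h2 | h2 | h2
  · subst h1; subst h2
    rw [tpos_zero, tpos_zero] at h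
    refine ⟨rfl, fun _ => told_inj T t _ _ h, fun h => by omega, fun h => by omega⟩
  · subst h1; subst h2
    rw [tpos_zero, tpos_t T _ ht] at h
    exact absurd (told_inj T _ _ _ h) (hab _ _)
  · subst h1
    rw [tpos_zero, tpos_mid T t _ _ h2] at h
    exact absurd h (told_ne_mid T t _ _)
  · subst h1; subst h2
    rw [tpos_zero, tpos_t T _ ht] at h
    exact absurd (told_inj T _ _ _ h).symm (hab _ _)
  · subst h1; subst h2
    rw [tpos_t T _ ht, tpos_t T _ ht] at h
    refine ⟨rfl, fun h => by omega, fun _ => told_inj T _ _ _ h, fun _ h => by omega⟩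
  · subst h1
    rw [tpos_t T _ ht, tpos_mid T _ _ _ h2] at h
    exact absurd h (told_ne_mid T _ _ _)
  · subst h2
    rw [tpos_zero, tpos_mid T _ _ _ h1] at h
    exact absurd h.symm (told_ne_mid T _ _ _)
  · subst h2
    rw [tpos_t T _ ht, tpos_mid T _ _ _ h1] at h
    exact absurd h.symm (told_ne_mid T _ _ _)
  · rw [tpos_mid T _ _ _ h1, tpos_mid T _ _ _ h2] at h
    have h3 := Sum.inr.inj (Sum.inr.inj h)
    rw [Prod.mk.injEq, Fin.mk.injEq] at h3
    exact ⟨by omega, fun h => by omega, fun h => by omega, fun _ _ => h3.1⟩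

theorem tpos_ne_hub (T : TR) (t : ℕ) (e : T.E) (i : ℕ) (s : Bool) :
    T.pos t e i ≠ .inl (.inr s) := by
  unfold TR.pos
  split_ifs
  · simp
  · exact told_ne_hub T t _ _
  · exact told_ne_hub T t _ _

theorem tends_inj (T : TR) (hT : T.Ok) (t : ℕ) (ht : 1 ≤ t) (x x' : (T.E × Fin t) ⊕ T.I)
    (h : (T.lends t x).1 = (T.lends t x').1 ∧ (T.lends t x).2 = (T.lends t x').2 ∨
      (T.lends t x).1 = (T.lends t x').2 ∧ (T.lends t x).2 = (T.lends t x').1) : x = x' := by
  rcases x with ⟨e, i⟩ | w <;> rcases x' with ⟨e', i'⟩ | w' <;> simp only [TR.lends] at h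
  · rcases h with ⟨h1, h2⟩ | ⟨h1, h2⟩
    · have k1 := tpos_inj T hT t ht e e' _ _ (by omega) (by omega) h1
      have k2 := tpos_inj T hT t ht e e' _ _ (by omega) (by omega) h2
      have hii : i = i' := Fin.ext k1.1
      subst hii
      have hee : e = e' := by
        by_cases c1 : 1 ≤ i.1
        · exact k1.2.2.2 c1 i.2
        · by_cases c2 : i.1 + 1 < t
          · exact k2.2.2.2 (by omega) c2
          · exact hT.inj e e' (k1.2.1 (by omega)) (k2.2.2.1 (by omega))
      rw [hee]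
    · have k1 := tpos_inj T hT t ht e e' _ _ (by omega) (by omega) h1
      have k2 := tpos_inj T hT t ht e e' _ _ (by omega) (by omega) h2
      omega
  · rcases h with ⟨h1, h2⟩ | ⟨h1, h2⟩
    · exact absurd h2 (tpos_ne_hub T t _ _ _)
    · exact absurd h1 (tpos_ne_hub T t _ _ _)
  · rcases h with ⟨h1, h2⟩ | ⟨h1, h2⟩
    · exact absurd h2.symm (tpos_ne_hub T t _ _ _)
    · exact absurd h2.symm (tpos_ne_hub T t _ _ _)
  · rcases h with ⟨h1, h2⟩ | ⟨h1, h2⟩
    · rw [Sum.inl.inj (Sum.inr.inj h1)]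
    · exact absurd h1 (by simp)

theorem TO : TO_stmt := by
  intro T t hT ht
  refine ⟨⟨?_, ?_, ?_, ?_⟩, ?_, ?_⟩
  · intro x
    rcases tab T hT t ht x with h | h
    · rw [h.1]; exact h.2.2.1
    · rw [h.1]; exact h.2.2.1
  · intro x
    rcases tab T hT t ht x with h | h
    · rw [h.2.1]; exact h.2.2.2
    · rw [h.2.1]; exact h.2.2.2
  · intro x x' ha hb
    apply tends_inj T hT t ht x x'
    rcases tab T hT t ht x with h | h <;> rcases tab T hT t ht x' with h' | h' <;>
      rw [h.1, h'.1] at ha <;> rw [h.2.1, h'.2.1] at hb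
    · exact Or.inl ⟨ha, hb⟩
    · exact Or.inr ⟨ha, hb⟩
    · exact Or.inr ⟨hb, ha⟩
    · exact Or.inl ⟨hb, ha⟩
  · have key : ∀ x : (T.E × Fin t) ⊕ T.I,
        ((∃ y, (T.lends t x).1 = Sum.inr y) ∨ (∃ y, (T.lends t x).2 = Sum.inr y)) →
        (∃ y, (T.L t).a x = Sum.inr y) ∨ (∃ y, (T.L t).b x = Sum.inr y) := by
      intro x hw
      rcases tab T hT t ht x with h | h <;> rw [h.1, h.2.1]
      · exact hw
      · exact hw.symm
    intro x
    apply key x
    rcases x with ⟨e, i⟩ | y
    · simp only [TR.lends]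
      by_cases c1 : 1 ≤ i.1
      · left; exact ⟨_, tpos_mid T t e _ ⟨c1, i.2⟩⟩
      · by_cases c2 : i.1 + 1 < t
        · right; exact ⟨_, tpos_mid T t e _ ⟨by omega, c2⟩⟩
        · have h0 : i.1 = 0 := by omega
          have h1 : i.1 + 1 = t := by omega
          rw [h1, h0, tpos_zero, tpos_t T t ht]
          rcases hT.nr e with ⟨y, hy⟩ | ⟨y, hy⟩
          · left; exact ⟨.inl y, by rw [hy]; rfl⟩
          · right; exact ⟨.inl y, by rw [hy]; rfl⟩
    · left; exact ⟨.inl y, rfl⟩
  · show Fintype.card (T.I ⊕ (T.E × Fin (t - 1))) = _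
    simp [Fintype.card_sum, Fintype.card_prod]
  · show Fintype.card ((T.E × Fin t) ⊕ T.I) = _
    simp [Fintype.card_sum, Fintype.card_prod]

end

end Pool.Agent.helper36.F2
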